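import Pool.Agent.Y76.FPR.Order

/-!
Uniform bound, over all primes, for the Frobenius order of an element.
-/

set_option autoImplicit false
set_option linter.unusedVariables false

namespace Pool.Agent.Y76.FPR

open Submodule IsLocalRing

universe u

variable {R : Type u} [CommRing R] (p : ℕ) [Fact p.Prime] [CharP R p]

theorem lt_sup_span {I : Ideal R} {x : R} (hx : x ∉ I) : I < I ⊔ Ideal.span {x} := by
  refine lt_of_le_of_ne le_sup_left fun h => hx ?_
  rw [h]
  exact Ideal.mem_sup_right (Ideal.mem_span_singleton_self x)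

theorem sup_span_le {I Q : Ideal R} {x : R} (hI : I ≤ Q) (hx : x ∈ Q) : I ⊔ Ideal.span {x} ≤ Q :=
  sup_le hI ((Ideal.span_singleton_le_iff_mem _).2 hx)

theorem exists_bound [IsNoetherianRing R]
    (hJ : ∀ (P : Ideal R) [P.IsPrime], ∃ g, g ∉ P ∧ ∀ (q : Ideal (R ⧸ P)) [q.IsPrime],
      Ideal.Quotient.mk P g ∉ q → IsRegularLocalRing (Localization.AtPrime q))
    (c : R) (hc : ∀ P ∈ minimalPrimes R, c ∉ P) :
    ∃ e, ∀ (Q : Ideal R) [Q.IsPrime], Good p c Q e := by
  have step : ∀ I : Ideal R,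
      (∀ J : Ideal R, I < J → ∃ e, ∀ (Q : Ideal R) [Q.IsPrime], J ≤ Q → Good p c Q e) →
      ∃ e, ∀ (Q : Ideal R) [Q.IsPrime], I ≤ Q → Good p c Q e := by
      intro I ih
      by_cases hprime : I.IsPrime
      · obtain ⟨e₀, h0⟩ := exists_good p c hc I
        obtain ⟨f, hf, hf2⟩ := good_spread p c I e₀ h0
        obtain ⟨g, hg, hg2⟩ := hJ I
        have hfg : f * g ∉ I := fun h => (hprime.mem_or_mem h).elim hf hg
        obtain ⟨e₁, h1⟩ := ih _ (lt_sup_span hfg)
        refine ⟨max e₀ e₁, fun Q hQ hIQ => ?_⟩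
        by_cases hfgQ : f * g ∈ Q
        · exact (h1 Q (sup_span_le hIQ hfgQ)).mono p (le_max_right _ _)
        · have hfQ : f ∉ Q := fun h => hfgQ (Q.mul_mem_right _ h)
          have hgQ : g ∉ Q := fun h => hfgQ (Q.mul_mem_left _ h)
          have hker : RingHom.ker (Ideal.Quotient.mk I) ≤ Q := by rw [Ideal.mk_ker]; exact hIQ
          have hQmap : (Q.map (Ideal.Quotient.mk I)).IsPrime :=
            Ideal.map_isPrime_of_surjective Ideal.Quotient.mk_surjective hker
          have hcm : (Q.map (Ideal.Quotient.mk I)).comap (Ideal.Quotient.mk I) = Q := by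
            rw [Ideal.comap_map_of_surjective _ Ideal.Quotient.mk_surjective,
              ← RingHom.ker_eq_comap_bot, sup_eq_left]
            exact hker
          refine (hf2 Q hIQ hfQ (Q.map (Ideal.Quotient.mk I)) hcm.symm (hg2 _ ?_)).mono p
            (le_max_left _ _)
          intro h
          apply hgQ
          rw [← hcm]; exact h
      · rcases Ideal.not_isPrime_iff.1 hprime with h | ⟨x, hx, y, hy, hxy⟩
        · refine ⟨0, fun Q hQ hIQ => absurd ?_ hQ.ne_top⟩
          rw [h] at hIQ; exact top_le_iff.1 hIQ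
        · obtain ⟨e₀, h0⟩ := ih _ (lt_sup_span hx)
          obtain ⟨e₁, h1⟩ := ih _ (lt_sup_span hy)
          refine ⟨max e₀ e₁, fun Q hQ hIQ => ?_⟩
          rcases hQ.mem_or_mem (hIQ hxy) with h | h
          · exact (h0 Q (sup_span_le hIQ h)).mono p (le_max_left _ _)
          · exact (h1 Q (sup_span_le hIQ h)).mono p (le_max_right _ _)
  have key : ∀ I : Ideal R, ∃ e, ∀ (Q : Ideal R) [Q.IsPrime], I ≤ Q → Good p c Q e :=
    fun I => IsNoetherian.induction step I
  obtain ⟨e, he⟩ := key ⊥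
  exact ⟨e, fun Q _ => he Q bot_le⟩

end Pool.Agent.Y76.FPR
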