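import Pool.Agent.Y76.FPR.WR

/-!
Purity of `r ↦ r • c` into a module on which, at every maximal ideal, parameters form a weakly
regular sequence.
-/

set_option autoImplicit false
set_option linter.unusedVariables false

namespace Pool.Agent.Y76.FPR

open TensorProduct Submodule LinearMap

universe u v w

section mu

variable {R : Type u} [CommRing R] (N : Type v) [AddCommGroup N] [Module R N]

/-- The multiplication map. -/
noncomputable def mu (I : Ideal R) : I ⊗[R] N →ₗ[R] N :=
  (TensorProduct.lid R N).toLinearMap ∘ₗ (I.subtype.rTensor N)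

variable {N}

@[simp] theorem mu_tmul (I : Ideal R) (a : I) (n : N) : mu N I (a ⊗ₜ n) = (a : R) • n := by
  simp [mu]

theorem mu_eq_zero_iff (I : Ideal R) (θ : I ⊗[R] N) : mu N I θ = 0 ↔ I.subtype.rTensor N θ = 0 := by
  rw [mu, LinearMap.comp_apply, LinearEquiv.coe_coe, LinearEquiv.map_eq_zero_iff]

theorem mu_mem (I : Ideal R) (θ : I ⊗[R] N) : mu N I θ ∈ I • (⊤ : Submodule R N) := by
  induction θ with
  | zero => rw [map_zero]; exact Submodule.zero_mem _
  | tmul a n => rw [mu_tmul]; exact Submodule.smul_mem_smul a.2 trivial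
  | add x y hx hy => rw [map_add]; exact Submodule.add_mem _ hx hy

theorem exists_mu (I : Ideal R) {n : N} (hn : n ∈ I • (⊤ : Submodule R N)) : ∃ θ, mu N I θ = n := by
  refine Submodule.smul_induction_on hn ?_ ?_
  · intro r hr n _
    exact ⟨⟨r, hr⟩ ⊗ₜ n, mu_tmul I _ _⟩
  · rintro x y ⟨a, rfl⟩ ⟨b, rfl⟩
    exact ⟨a + b, map_add _ _ _⟩

theorem mu_inclusion {I J : Ideal R} (h : I ≤ J) (θ : I ⊗[R] N) :
    mu N J ((Submodule.inclusion h).rTensor N θ) = mu N I θ := by
  induction θ with
  | zero => simp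
  | tmul a n => simp
  | add x y hx hy => rw [map_add, map_add, map_add, hx, hy]

theorem tmul_mu {I J : Ideal R} (h : I ≤ J) (y : J) (θ : I ⊗[R] N) :
    y ⊗ₜ (mu N I θ) = (Submodule.inclusion h).rTensor N ((y : R) • θ) := by
  induction θ with
  | zero => simp
  | tmul a n =>
    rw [mu_tmul, TensorProduct.tmul_smul, TensorProduct.smul_tmul', TensorProduct.smul_tmul',
      LinearMap.rTensor_tmul]
    congr 1
    apply Subtype.ext
    simp [mul_comm]
  | add x y' hx hy => rw [map_add, TensorProduct.tmul_add, hx, hy, smul_add, map_add]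

theorem ofList_cons_le (y : R) (ys : List R) : Ideal.ofList ys ≤ Ideal.ofList (y :: ys) := by
  rw [Ideal.ofList_cons]; exact le_sup_right

theorem mem_ofList_cons (y : R) (ys : List R) : y ∈ Ideal.ofList (y :: ys) := by
  rw [Ideal.ofList_cons]; exact Ideal.mem_sup_left (Ideal.mem_span_singleton_self y)

theorem exists_decomp (y : R) (ys : List R) (θ : Ideal.ofList (y :: ys) ⊗[R] N) :
    ∃ (θ₁ : Ideal.ofList ys ⊗[R] N) (n : N),
      θ = (Submodule.inclusion (ofList_cons_le y ys)).rTensor N θ₁ +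
        (⟨y, mem_ofList_cons y ys⟩ : Ideal.ofList (y :: ys)) ⊗ₜ n := by
  induction θ with
  | zero => exact ⟨0, 0, by simp⟩
  | tmul a n =>
    obtain ⟨a, ha⟩ := a
    have ha' := ha
    rw [Ideal.ofList_cons, Submodule.mem_sup] at ha'
    obtain ⟨b, hb, d, hd, hbd⟩ := ha'
    obtain ⟨r, hr⟩ := Ideal.mem_span_singleton'.1 hb
    refine ⟨⟨d, hd⟩ ⊗ₜ n, r • n, ?_⟩
    rw [LinearMap.rTensor_tmul, TensorProduct.tmul_smul, TensorProduct.smul_tmul',
      ← TensorProduct.add_tmul]
    congr 1
    apply Subtype.ext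
    simp [← hbd, ← hr, add_comm]
  | add x y' hx hy =>
    obtain ⟨a, n, h1⟩ := hx
    obtain ⟨b, n', h2⟩ := hy
    refine ⟨a + b, n + n', ?_⟩
    rw [h1, h2, map_add, TensorProduct.tmul_add]; abel

/-- The kernel of `(ys) ⊗ N → N` vanishes at `Q`. -/
theorem koszul_step {Q : Ideal R} [Q.IsPrime] (ys : List R) (h : WR Q N ys) :
    ∀ θ : Ideal.ofList ys ⊗[R] N, mu N _ θ = 0 → ∃ t, t ∉ Q ∧ t • θ = 0 := by
  induction ys with
  | nil =>
    have h0 : ∀ θ : Ideal.ofList ([] : List R) ⊗[R] N, θ = 0 := by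
      intro θ
      induction θ with
      | zero => rfl
      | tmul a n =>
        obtain ⟨a, ha⟩ := a
        have ha' := ha
        rw [Ideal.ofList_nil, Submodule.mem_bot] at ha'
        subst ha'
        exact TensorProduct.zero_tmul _ _
      | add x y hx hy => rw [hx, hy, add_zero]
    intro θ _
    refine ⟨1, fun h => ‹Q.IsPrime›.ne_top ((Ideal.eq_top_iff_one _).2 h), ?_⟩
    rw [one_smul]
    exact h0 θ
  | cons y ys ih =>
    intro θ hθ
    obtain ⟨θ₁, n, rfl⟩ := exists_decomp y ys θ
    rw [map_add, mu_inclusion, mu_tmul] at hθ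
    change mu N _ θ₁ + y • n = 0 at hθ
    have h1 : y • n ∈ Ideal.ofList ys • (⊤ : Submodule R N) := by
      have : y • n = - mu N _ θ₁ := by rw [eq_neg_iff_add_eq_zero, add_comm]; exact hθ
      rw [this]
      exact Submodule.neg_mem _ (mu_mem _ _)
    obtain ⟨t, ht, h2⟩ := h.2 n h1
    obtain ⟨θ₃, h3⟩ := exists_mu _ h2
    obtain ⟨t', ht', h4⟩ := ih h.1 (t • θ₁ + y • θ₃) (by
      rw [map_add, map_smul, map_smul, h3, smul_comm y t n, ← smul_add, hθ, smul_zero])
    refine ⟨t' * t, fun hmem => (‹Q.IsPrime›.mem_or_mem hmem).elim ht' ht, ?_⟩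
    have h5 : t • ((⟨y, mem_ofList_cons y ys⟩ : Ideal.ofList (y :: ys)) ⊗ₜ[R] n) =
        (Submodule.inclusion (ofList_cons_le y ys)).rTensor N (y • θ₃) := by
      rw [← TensorProduct.tmul_smul, ← h3, tmul_mu (ofList_cons_le y ys)]
    rw [mul_smul, smul_add t, h5, ← map_smul, ← map_add, ← map_smul, h4, map_zero]

end mu

section tor

variable {R : Type u} [CommRing R] {N : Type v} [AddCommGroup N] [Module R N]

/-- hypothesis on `N` at a maximal ideal -/
def HasPar (N : Type v) [AddCommGroup N] [Module R N] (m : Ideal R) : Prop :=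
  ∃ ys : List R, (∃ s, s ∉ m ∧ ∀ b ∈ m, s * b ∈ Ideal.ofList ys) ∧ (∀ y ∈ ys, y ∈ m) ∧ WR m N ys

theorem tor_vanish (m : Ideal R) [hm : m.IsMaximal] (h : HasPar N m) :
    Function.Injective (m.subtype.rTensor N) := by
  rw [injective_iff_map_eq_zero]
  intro θ hθ
  rw [← mu_eq_zero_iff] at hθ
  -- local vanishing
  have hloc : ∀ m' : Ideal R, m'.IsMaximal → ∃ s, s ∉ m' ∧ s • θ = 0 := by
    intro m' hm'
    by_cases hmm : m = m'
    · subst hmm
      obtain ⟨ys, ⟨s, hs, h1⟩, h2, h3⟩ := h
      have hle : Ideal.ofList ys ≤ m := by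
        rw [Ideal.ofList, Ideal.span_le]; intro y hy; exact h2 y hy
      let φ : m →ₗ[R] Ideal.ofList ys :=
        { toFun := fun b => ⟨s * b, h1 b b.2⟩
          map_add' := fun a b => Subtype.ext (mul_add _ _ _)
          map_smul' := fun r b => Subtype.ext (by
            change s * (r * b) = r * (s * b)
            ring) }
      have h4 : ∀ η : m ⊗[R] N, (Submodule.inclusion hle).rTensor N (φ.rTensor N η) = s • η := by
        intro η
        induction η with
        | zero => simp
        | tmul a n =>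
          rw [LinearMap.rTensor_tmul, LinearMap.rTensor_tmul, TensorProduct.smul_tmul']
          congr 1
        | add x y hx hy => rw [map_add, map_add, hx, hy, smul_add]
      have h5 : mu N _ (φ.rTensor N θ) = 0 := by
        rw [← mu_inclusion hle, h4, map_smul, hθ, smul_zero]
      obtain ⟨t, ht, h6⟩ := koszul_step ys h3 _ h5
      refine ⟨t * s, fun hmem => (hm.isPrime.mem_or_mem hmem).elim ht hs, ?_⟩
      rw [mul_smul, ← h4, ← map_smul, h6, map_zero]
    · obtain ⟨s, hs, hs'⟩ := SetLike.not_le_iff_exists.1 (fun hle => hmm (hm.eq_of_le hm'.ne_top hle))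
      refine ⟨s, hs', ?_⟩
      have : ∀ η : m ⊗[R] N, s • η = (⟨s, hs⟩ : m) ⊗ₜ (mu N m η) := by
        intro η
        rw [tmul_mu (le_refl m)]
        have : Submodule.inclusion (le_refl m) = LinearMap.id := rfl
        rw [this, LinearMap.rTensor_id, LinearMap.id_apply]
      rw [this, hθ, TensorProduct.tmul_zero]
  -- conclude
  by_contra hne
  have hann : (Submodule.span R {θ}).annihilator ≠ ⊤ := by
    intro htop
    apply hne
    have : (1 : R) ∈ (Submodule.span R {θ}).annihilator := by rw [htop]; trivial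
    rw [Submodule.mem_annihilator_span_singleton, one_smul] at this
    exact this
  obtain ⟨m', hm', hle⟩ := Ideal.exists_le_maximal _ hann
  obtain ⟨s, hs, h1⟩ := hloc m' hm'
  exact hs (hle ((Submodule.mem_annihilator_span_singleton _ _).2 h1))

/-- one step of a composition series -/
theorem inj_step {L : Type w} [AddCommGroup L] [Module R L] (m : Ideal R) [hm : m.IsMaximal]
    (htor : Function.Injective (m.subtype.rTensor N)) (K : Submodule R L) (x : L) (hx : x ∉ K)
    (hmx : ∀ a ∈ m, a • x ∈ K) :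
    Function.Injective ((Submodule.inclusion (le_sup_left : K ≤ K ⊔ Submodule.span R {x})).rTensor N) := by
  set K' := K ⊔ Submodule.span R {x} with hK'
  have hxK' : x ∈ K' := Submodule.mem_sup_right (Submodule.mem_span_singleton_self x)
  let φ : m →ₗ[R] (K × R) :=
    { toFun := fun a => (-⟨(a : R) • x, hmx a a.2⟩, a)
      map_add' := fun a b => by
        refine Prod.ext ?_ rfl
        apply Subtype.ext
        change -(((a : R) + b) • x) = -((a : R) • x) + -((b : R) • x)
        rw [add_smul]; abel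
      map_smul' := fun r a => by
        refine Prod.ext ?_ rfl
        apply Subtype.ext
        change -((r * (a : R)) • x) = r • -((a : R) • x)
        rw [mul_smul, smul_neg] }
  let ψ : (K × R) →ₗ[R] K' :=
    LinearMap.coprod (Submodule.inclusion (le_sup_left : K ≤ K'))
      (LinearMap.toSpanSingleton R K' ⟨x, hxK'⟩)
  have hψ : ∀ (k : K) (r : R), ((ψ (k, r) : K') : L) = k + r • x := by
    intro k r
    simp [ψ]
  have hsurj : Function.Surjective ψ := by
    rintro ⟨z, hz⟩
    obtain ⟨k, hk, y, hy, rfl⟩ := Submodule.mem_sup.1 hz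
    obtain ⟨r, rfl⟩ := Submodule.mem_span_singleton.1 hy
    exact ⟨(⟨k, hk⟩, r), Subtype.ext (hψ _ _)⟩
  have hexact : Function.Exact φ ψ := by
    rintro ⟨k, r⟩
    constructor
    · intro h0
      have h1 : (k : L) + r • x = 0 := by rw [← hψ, h0]; rfl
      have hr : r ∈ m := by
        by_contra hr
        obtain ⟨a, b, hb, hab⟩ := (Ideal.isMaximal_iff.1 hm).2 (m ⊔ Ideal.span {r}) r le_sup_left hr
            (Ideal.mem_sup_right (Ideal.mem_span_singleton_self r)) |> fun h =>
          (show ∃ a b, b ∈ m ∧ a * r + b = 1 from by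
            obtain ⟨b, hb, c, hc, hbc⟩ := Submodule.mem_sup.1 h
            obtain ⟨a, rfl⟩ := Ideal.mem_span_singleton'.1 hc
            exact ⟨a, b, hb, by rw [add_comm]; exact hbc⟩)
        apply hx
        have h2 : r • x ∈ K := by
          have : r • x = -(k : L) := by rw [eq_neg_iff_add_eq_zero, add_comm]; exact h1
          rw [this]; exact K.neg_mem k.2
        have h3 : x = a • (r • x) + b • x := by rw [smul_smul, ← add_smul, hab, one_smul]
        rw [h3]
        exact K.add_mem (K.smul_mem _ h2) (hmx b hb)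
      refine ⟨⟨r, hr⟩, Prod.ext ?_ rfl⟩
      apply Subtype.ext
      change -(r • x) = (k : L)
      rw [neg_eq_iff_add_eq_zero, add_comm]; exact h1
    · rintro ⟨a, ha⟩
      rw [← ha]
      apply Subtype.ext
      have h1 : φ a = (-⟨(a : R) • x, hmx a a.2⟩, (a : R)) := rfl
      rw [h1, hψ]
      simp
  have hT := rTensor_exact N hexact hsurj
  rw [injective_iff_map_eq_zero]
  intro θ hθ
  have h1 : ψ.rTensor N ((LinearMap.inl R K R).rTensor N θ) = 0 := by
    rw [← LinearMap.comp_apply, ← LinearMap.rTensor_comp, LinearMap.coprod_inl]; exact hθ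
  obtain ⟨η, hη⟩ := (hT _).1 h1
  have h2 : m.subtype.rTensor N η = 0 := by
    have h3 : (LinearMap.snd R K R).rTensor N (φ.rTensor N η) = m.subtype.rTensor N η := by
      rw [← LinearMap.comp_apply, ← LinearMap.rTensor_comp]; rfl
    rw [← h3, hη, ← LinearMap.comp_apply, ← LinearMap.rTensor_comp, LinearMap.snd_comp_inl]
    simp
  have h4 : η = 0 := htor (by rw [h2, map_zero])
  rw [h4, map_zero] at hη
  have h5 : (LinearMap.fst R K R).rTensor N ((LinearMap.inl R K R).rTensor N θ) = θ := by
    rw [← LinearMap.comp_apply, ← LinearMap.rTensor_comp, LinearMap.fst_comp_inl]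
    simp
  rw [← h5, ← hη, map_zero]

/-- inclusions of modules with `m`-power torsion quotients stay injective -/
theorem inj_of_pow {L : Type w} [AddCommGroup L] [Module R L] [IsNoetherian R L] (m : Ideal R)
    [hm : m.IsMaximal] (htor : Function.Injective (m.subtype.rTensor N)) (t : ℕ)
    (ht : ∀ a ∈ m ^ t, ∀ x : L, a • x = 0) (K : Submodule R L) :
    Function.Injective (K.subtype.rTensor N) := by
  induction K using IsNoetherian.induction with
  | hgt K ih =>
    by_cases hK : K = ⊤
    · subst hK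
      have : Function.Bijective ((⊤ : Submodule R L).subtype) :=
        (Submodule.topEquiv : (⊤ : Submodule R L) ≃ₗ[R] L).bijective
      exact (LinearEquiv.rTensor N (Submodule.topEquiv : (⊤ : Submodule R L) ≃ₗ[R] L)).injective
    · -- find `x`
      have hx : ∃ x, x ∉ K ∧ ∀ a ∈ m, a • x ∈ K := by
        by_contra hcon
        push Not at hcon
        have h1 : ∀ n : ℕ, ∀ x, x ∉ K → ∃ a ∈ m ^ n, a • x ∉ K := by
          intro n
          induction n with
          | zero => intro x hx; exact ⟨1, by simp, by rw [one_smul]; exact hx⟩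
          | succ n ihn =>
            intro x hx
            obtain ⟨a, ha, h1⟩ := ihn x hx
            obtain ⟨b, hb, h2⟩ := hcon _ h1
            refine ⟨b * a, ?_, by rw [mul_smul]; exact h2⟩
            rw [pow_succ']; exact Ideal.mul_mem_mul hb ha
        obtain ⟨x, hx⟩ : ∃ x, x ∉ K := by
          by_contra hc
          push Not at hc
          exact hK (eq_top_iff.2 fun x _ => hc x)
        obtain ⟨a, ha, h2⟩ := h1 t x hx
        apply h2
        rw [ht a ha x]; exact K.zero_mem
      obtain ⟨x, hx, hmx⟩ := hx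
      have hlt : K < K ⊔ Submodule.span R {x} := by
        refine lt_of_le_of_ne le_sup_left fun h => hx ?_
        rw [h]; exact Submodule.mem_sup_right (Submodule.mem_span_singleton_self x)
      have h2 := (ih _ hlt).comp (inj_step m htor K x hx hmx)
      have h3 : K.subtype = (K ⊔ Submodule.span R {x}).subtype ∘ₗ
          (Submodule.inclusion (le_sup_left : K ≤ K ⊔ Submodule.span R {x})) := rfl
      rw [h3, LinearMap.rTensor_comp]
      exact h2

theorem tmul_ne_zero_of_fg [IsNoetherianRing R] (c : N)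
    (hpar : ∀ (m : Ideal R) [m.IsMaximal], HasPar N m)
    (hc : ∀ (m : Ideal R) [m.IsMaximal], c ∉ m • (⊤ : Submodule R N))
    {P : Type w} [AddCommGroup P] [Module R P] [Module.Finite R P] (z : P) (hz : z ≠ 0) :
    z ⊗ₜ[R] c ≠ 0 := by
  intro h0
  have hann : (Submodule.span R {z}).annihilator ≠ ⊤ := by
    intro htop
    apply hz
    have : (1 : R) ∈ (Submodule.span R {z}).annihilator := by rw [htop]; trivial
    rw [Submodule.mem_annihilator_span_singleton, one_smul] at this
    exact this
  obtain ⟨m, hm, hle⟩ := Ideal.exists_le_maximal _ hann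
  have htor := tor_vanish (N := N) m (hpar m)
  -- Krull
  have hk : ∃ t : ℕ, z ∉ (m ^ t • ⊤ : Submodule R P) := by
    by_contra hcon
    push Not at hcon
    have h1 : z ∈ (⨅ i : ℕ, m ^ i • ⊤ : Submodule R P) := by
      rw [Submodule.mem_iInf]; exact hcon
    obtain ⟨r, hr⟩ := (Ideal.mem_iInf_smul_pow_eq_bot_iff m z).1 h1
    have h2 : (1 - (r : R)) ∈ m := by
      apply hle
      rw [Submodule.mem_annihilator_span_singleton, sub_smul, one_smul, hr, sub_self]
    apply hm.ne_top
    rw [Ideal.eq_top_iff_one]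
    have := m.add_mem h2 r.2
    rwa [sub_add_cancel] at this
  obtain ⟨t, ht⟩ := hk
  let W : Submodule R P := m ^ t • ⊤
  let L := P ⧸ W
  have hL : ∀ a ∈ m ^ t, ∀ x : L, a • x = 0 := by
    intro a ha x
    obtain ⟨x, rfl⟩ := W.mkQ_surjective x
    rw [← map_smul, Submodule.mkQ_apply, Submodule.Quotient.mk_eq_zero]
    exact Submodule.smul_mem_smul ha trivial
  have hzL : W.mkQ z ≠ 0 := by
    rw [Submodule.mkQ_apply, Ne, Submodule.Quotient.mk_eq_zero]; exact ht
  -- socle element
  have hsoc : ∃ r : R, r • W.mkQ z ≠ 0 ∧ ∀ a ∈ m, a • (r • W.mkQ z) = 0 := by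
    by_contra hcon
    push Not at hcon
    have h1 : ∀ n : ℕ, ∃ a ∈ m ^ n, a • W.mkQ z ≠ 0 := by
      intro n
      induction n with
      | zero => exact ⟨1, by simp, by rw [one_smul]; exact hzL⟩
      | succ n ihn =>
        obtain ⟨a, ha, h1⟩ := ihn
        obtain ⟨b, hb, h2⟩ := hcon a h1
        refine ⟨b * a, ?_, by rw [mul_smul]; exact h2⟩
        rw [pow_succ']; exact Ideal.mul_mem_mul hb ha
    obtain ⟨a, ha, h2⟩ := h1 t
    exact h2 (hL a ha _)
  obtain ⟨r, hr0, hrm⟩ := hsoc
  set x := r • W.mkQ z with hxdef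
  let K : Submodule R L := Submodule.span R {x}
  have hinj := inj_of_pow (N := N) m htor t hL K
  have hxK : x ∈ K := Submodule.mem_span_singleton_self x
  have h1 : K.subtype.rTensor N ((⟨x, hxK⟩ : K) ⊗ₜ c) = 0 := by
    rw [LinearMap.rTensor_tmul]
    change x ⊗ₜ[R] c = 0
    have h2 := congrArg (fun η => r • (W.mkQ.rTensor N η)) h0
    simp only [LinearMap.rTensor_tmul, map_zero, smul_zero] at h2
    rw [TensorProduct.smul_tmul'] at h2
    exact h2
  have h2 : (⟨x, hxK⟩ : K) ⊗ₜ[R] c = 0 := hinj (by rw [h1, map_zero])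
  -- map `K → R ⧸ m`
  have hkerx : LinearMap.ker (LinearMap.toSpanSingleton R L x) = m := by
    refine (hm.eq_of_le ?_ ?_).symm
    · intro htop
      apply hr0
      have : (1 : R) ∈ LinearMap.ker (LinearMap.toSpanSingleton R L x) := by rw [htop]; trivial
      rw [LinearMap.mem_ker, LinearMap.toSpanSingleton_apply, one_smul] at this
      exact this
    · intro a ha
      rw [LinearMap.mem_ker, LinearMap.toSpanSingleton_apply]
      exact hrm a ha
  -- bilinear map `K × N → N ⧸ m N`
  let e : (R ⧸ LinearMap.ker (LinearMap.toSpanSingleton R L x)) ≃ₗ[R]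
      LinearMap.range (LinearMap.toSpanSingleton R L x) :=
    (LinearMap.toSpanSingleton R L x).quotKerEquivRange
  have hrange : LinearMap.range (LinearMap.toSpanSingleton R L x) = K :=
    LinearMap.range_toSpanSingleton x
  let e2 : K →ₗ[R] (R ⧸ LinearMap.ker (LinearMap.toSpanSingleton R L x)) :=
    e.symm.toLinearMap ∘ₗ (LinearEquiv.ofEq _ _ hrange.symm).toLinearMap
  have he2 : e2 ⟨x, hxK⟩ = Submodule.Quotient.mk 1 := by
    change e.symm _ = _
    rw [LinearEquiv.symm_apply_eq]
    apply Subtype.ext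
    rw [LinearMap.quotKerEquivRange_apply_mk]
    simp
  let f : (R ⧸ LinearMap.ker (LinearMap.toSpanSingleton R L x)) →ₗ[R] N →ₗ[R]
      (N ⧸ (m • ⊤ : Submodule R N)) :=
    Submodule.liftQ _ ((LinearMap.lsmul R (N →ₗ[R] (N ⧸ (m • ⊤ : Submodule R N)))).flip
      (m • ⊤ : Submodule R N).mkQ) (by
      intro a ha
      rw [hkerx] at ha
      rw [LinearMap.mem_ker]
      ext n
      change a • (m • ⊤ : Submodule R N).mkQ n = 0
      rw [← map_smul, Submodule.mkQ_apply, Submodule.Quotient.mk_eq_zero]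
      exact Submodule.smul_mem_smul ha trivial)
  have h3 := congrArg (TensorProduct.lift (f ∘ₗ e2)) h2
  rw [map_zero, TensorProduct.lift.tmul, LinearMap.comp_apply, he2] at h3
  have h4 : f (Submodule.Quotient.mk 1) c = (m • ⊤ : Submodule R N).mkQ c := by
    change (1 : R) • (m • ⊤ : Submodule R N).mkQ c = _
    rw [one_smul]
  rw [h4, Submodule.mkQ_apply, Submodule.Quotient.mk_eq_zero] at h3
  exact hc m h3

/-- Purity. -/
theorem tmul_ne_zero [IsNoetherianRing R] (c : N)
    (hpar : ∀ (m : Ideal R) [m.IsMaximal], HasPar N m)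
    (hc : ∀ (m : Ideal R) [m.IsMaximal], c ∉ m • (⊤ : Submodule R N))
    {P : Type w} [AddCommGroup P] [Module R P] (z : P) (hz : z ≠ 0) :
    z ⊗ₜ[R] c ≠ 0 := by
  intro h0
  let P₀ : Submodule R P := Submodule.span R {z}
  have hzP : z ∈ P₀ := Submodule.mem_span_singleton_self z
  obtain ⟨Q, hPQ, hQ, h1⟩ := TensorProduct.eq_zero_of_fg_of_subtype_eq_zero (N := N) (P := P₀)
    (Submodule.fg_span_singleton z) (t := (⟨z, hzP⟩ : P₀) ⊗ₜ c) (by
      rw [LinearMap.rTensor_tmul]; exact h0)
  rw [LinearMap.rTensor_tmul] at h1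
  have : Module.Finite R Q := Module.Finite.iff_fg.2 hQ
  refine tmul_ne_zero_of_fg (P := Q) c hpar hc (⟨z, hPQ hzP⟩ : Q) ?_ h1
  intro h
  exact hz (congrArg Subtype.val h)

end tor

end Pool.Agent.Y76.FPR
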