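import Pool.Agent.Y76.FPR.Bound
import Pool.Agent.Y76.FPR.Pure

/-!
Regular rings of prime characteristic whose quotient domains have a nonempty open set of regular
points are F-pure regular.
-/

set_option autoImplicit false
set_option linter.unusedVariables false

namespace Pool.Agent.Y76.FPR

open TensorProduct Submodule IsLocalRing

universe u v w

section

variable {R : Type u} [CommRing R] (p : ℕ) [Fact p.Prime] [CharP R p] (e : ℕ)
  {N : Type v} [AddCommGroup N] [Module R N] (i : N ≃+ R)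
  (hi : ∀ (r : R) (n : N), i (r • n) = r ^ p ^ e * i n)

include hi in
theorem mem_smul_top_iff (I : Ideal R) (n : N) :
    n ∈ I • (⊤ : Submodule R N) ↔ i n ∈ I.map (iterateFrobenius R p e) := by
  have hi' : ∀ (r x : R), i.symm (iterateFrobenius R p e r * x) = r • i.symm x := by
    intro r x
    apply i.injective
    rw [hi, i.apply_symm_apply, i.apply_symm_apply, iterateFrobenius_def]
  constructor
  · intro h
    refine Submodule.smul_induction_on h ?_ ?_
    · intro r hr n _
      rw [hi]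
      have := Ideal.mem_map_of_mem (iterateFrobenius R p e) hr
      rw [iterateFrobenius_def] at this
      exact Ideal.mul_mem_right _ _ this
    · intro x y hx hy
      rw [map_add]; exact Ideal.add_mem _ hx hy
  · intro h
    have key : ∀ x ∈ I.map (iterateFrobenius R p e), ∀ y : R, i.symm (x * y) ∈ I • (⊤ : Submodule R N) := by
      intro x hx
      refine Submodule.span_induction (p := fun x _ => ∀ y : R, i.symm (x * y) ∈
        I • (⊤ : Submodule R N)) ?_ ?_ ?_ ?_ hx
      · rintro _ ⟨a, ha, rfl⟩ y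
        have h1 := hi' a y
        change i.symm (iterateFrobenius R p e a * y) ∈ _
        rw [h1]
        exact Submodule.smul_mem_smul ha trivial
      · intro y; rw [zero_mul, map_zero]; exact Submodule.zero_mem _
      · intro x x' _ _ hx hx' y
        rw [add_mul, map_add]; exact Submodule.add_mem _ (hx y) (hx' y)
      · intro a x _ hx y
        rw [smul_eq_mul, mul_comm a x, mul_assoc]; exact hx _
    have := key _ h 1
    rwa [mul_one, i.symm_apply_apply] at this

include hi in
theorem WR_frob {m : Ideal R} (ys : List R) (h : WR m R (ys.map (· ^ p ^ e))) :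
    WR m N ys := by
  have hlist : ∀ ys : List R, (Ideal.ofList ys).map (iterateFrobenius R p e) =
      Ideal.ofList (ys.map (· ^ p ^ e)) := by
    intro ys
    rw [Ideal.map_ofList]
    congr 1
  have htop : ∀ J : Ideal R, J • (⊤ : Submodule R R) = J := fun J => by
    rw [smul_eq_mul, Ideal.mul_top]
  induction ys with
  | nil => trivial
  | cons y ys ih =>
    refine ⟨ih h.1, fun z hz => ?_⟩
    rw [mem_smul_top_iff p e i hi, hi, hlist] at hz
    obtain ⟨t, ht, h1⟩ := h.2 (i z) (by rw [htop]; exact hz)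
    rw [htop] at h1
    refine ⟨t, ht, ?_⟩
    rw [mem_smul_top_iff p e i hi, hi, hlist]
    have h2 : t ^ p ^ e * i z = t ^ (p ^ e - 1) * (t • i z) := by
      rw [smul_eq_mul, ← mul_assoc, ← pow_succ, Nat.sub_add_cancel (pow_pos (Fact.out : p.Prime).pos _)]
    rw [h2]
    exact Ideal.mul_mem_left _ _ h1

include hi in
theorem hasPar [IsRegularRing R] (m : Ideal R) [hm : m.IsMaximal] : HasPar N m := by
  have hreg : IsRegularRing (R ⧸ (⊥ : Ideal R)) := IsRegularRing.of_ringEquiv (RingEquiv.quotientBot R).symm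
  have hker : RingHom.ker (Ideal.Quotient.mk (⊥ : Ideal R)) ≤ m := by rw [Ideal.mk_ker]; exact bot_le
  have hQmap : (m.map (Ideal.Quotient.mk (⊥ : Ideal R))).IsPrime :=
    Ideal.map_isPrime_of_surjective Ideal.Quotient.mk_surjective hker
  have hcm : (m.map (Ideal.Quotient.mk (⊥ : Ideal R))).comap (Ideal.Quotient.mk ⊥) = m := by
    rw [Ideal.comap_map_of_surjective _ Ideal.Quotient.mk_surjective,
      ← RingHom.ker_eq_comap_bot, sup_eq_left]
    exact hker
  obtain ⟨ys, ⟨s, hs, h1⟩, h2, h3⟩ := exists_params_quot (⊥ : Ideal R)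
    (m.map (Ideal.Quotient.mk (⊥ : Ideal R))) m hcm.symm inferInstance
  refine ⟨ys, ⟨s, hs, fun b hb => by simpa using h1 b hb⟩, h2, ?_⟩
  refine WR_frob p e i hi ys ?_
  exact WR_congr (Submodule.quotEquivOfEqBot (⊥ : Ideal R) rfl) (h3 _ (pow_pos (Fact.out : p.Prime).pos _))

end

/-- Main theorem, abstract form. -/
theorem main (R : Type u) [CommRing R] [IsRegularRing R] (p : ℕ) [Fact p.Prime] [CharP R p]
    (hJ : ∀ (P : Ideal R) [P.IsPrime], ∃ U : Set (PrimeSpectrum (R ⧸ P)), IsOpen U ∧ U.Nonempty ∧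
      ∀ q ∈ U, IsRegularLocalRing (Localization.AtPrime q.asIdeal))
    (c : R) (hc : ∀ P ∈ minimalPrimes R, c ∉ P) :
    ∃ e, 1 ≤ e ∧ ∀ (N : Type v) [AddCommGroup N] [Module R N] (i : N ≃+ R),
      (∀ (r : R) (n : N), i (r • n) = r ^ p ^ e * i n) →
      ∀ (P : Type w) [AddCommGroup P] [Module R P] (z : P), z ≠ 0 → z ⊗ₜ[R] (i.symm c) ≠ 0 := by
  have hJ' : ∀ (P : Ideal R) [P.IsPrime], ∃ g, g ∉ P ∧ ∀ (q : Ideal (R ⧸ P)) [q.IsPrime],
      Ideal.Quotient.mk P g ∉ q → IsRegularLocalRing (Localization.AtPrime q) := by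
    intro P _
    obtain ⟨U, hU, ⟨q₀, hq₀⟩, hreg⟩ := hJ P
    obtain ⟨V, ⟨f, rfl⟩, hqV, hVU⟩ := PrimeSpectrum.isTopologicalBasis_basic_opens.exists_subset_of_mem_open
      hq₀ hU
    obtain ⟨g, rfl⟩ := Ideal.Quotient.mk_surjective f
    refine ⟨g, fun hg => ?_, fun q _ hq => hreg ⟨q, inferInstance⟩ (hVU hq)⟩
    apply hqV
    rw [Ideal.Quotient.eq_zero_iff_mem.2 hg]
    exact q₀.asIdeal.zero_mem
  obtain ⟨e₀, he₀⟩ := exists_bound p hJ' c hc
  refine ⟨max e₀ 1, le_max_right _ _, ?_⟩
  intro N _ _ i hi P _ _ z hz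
  refine tmul_ne_zero (i.symm c) (fun m _ => hasPar p _ i hi m) (fun m hm => ?_) z hz
  rw [mem_smul_top_iff p _ i hi, i.apply_symm_apply]
  have := ((he₀ m).mono p (le_max_left e₀ 1)) 1 (one_notMem m)
  rwa [one_mul] at this

end Pool.Agent.Y76.FPR
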