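import Pool.Agent.Y76.FPR.RegSeq

/-!
Boundedness of the Frobenius order of an element over a Noetherian ring whose quotient domains have
open regular locus.
-/

set_option autoImplicit false
set_option linter.unusedVariables false

namespace Pool.Agent.Y76.FPR

open Submodule IsLocalRing

universe u

variable {R : Type u} [CommRing R]

theorem one_notMem (Q : Ideal R) [Q.IsPrime] : (1 : R) ∉ Q :=
  fun h => ‹Q.IsPrime›.ne_top ((Ideal.eq_top_iff_one _).2 h)

theorem smul_mk (I : Ideal R) (a z : R) :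
    a • (Ideal.Quotient.mk I z) = Ideal.Quotient.mk I (a * z) := rfl

/-- Generic weak regularity of finite modules supported on `V(P)`. -/
theorem generic_WR [IsNoetherianRing R] (P : Ideal R) [P.IsPrime] (M : Type u) [AddCommGroup M]
    [Module R M] [Module.Finite R M] :
    (∃ k : ℕ, ∀ a ∈ P ^ k, ∀ z : M, a • z = 0) →
    ∃ f, f ∉ P ∧ ∀ (Q : Ideal R) [Q.IsPrime], P ≤ Q → f ∉ Q → ∀ ys : List R,
      WR Q (R ⧸ P) ys → WR Q M ys := by
  induction ‹Module.Finite R M› using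
    IsNoetherianRing.induction_on_isQuotientEquivQuotientPrime R with
  | subsingleton N =>
    intro _
    refine ⟨1, one_notMem P, fun Q _ _ _ ys _ => WR_of_torsion (fun z => ⟨1, one_notMem Q, ?_⟩) ys⟩
    exact Subsingleton.elim _ _
  | quotient N p e =>
    rintro ⟨k, hk⟩
    have hp := p.2
    have hPk : P ^ k ≤ p.1 := by
      intro a ha
      have h1 := hk a ha (e.symm (Ideal.Quotient.mk _ 1))
      have h2 := congrArg e h1
      rw [map_smul, e.apply_symm_apply, map_zero, Algebra.smul_def, map_one, mul_one] at h2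
      exact Ideal.Quotient.eq_zero_iff_mem.1 h2
    have hP : P ≤ p.1 := Ideal.IsPrime.le_of_pow_le hPk
    by_cases hpP : p.1 ≤ P
    · have heq : P = p.1 := le_antisymm hP hpP
      refine ⟨1, one_notMem P, fun Q _ _ _ ys hys => ?_⟩
      refine WR_congr e.symm ?_
      exact WR_congr (Submodule.quotEquivOfEq _ _ heq) hys
    · obtain ⟨a, ha, haP⟩ := SetLike.not_le_iff_exists.1 hpP
      refine ⟨a, haP, fun Q _ _ haQ ys _ => WR_of_torsion (fun z => ⟨a, haQ, ?_⟩) ys⟩
      apply e.injective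
      rw [map_smul, map_zero]
      obtain ⟨w, hw⟩ := Ideal.Quotient.mk_surjective (e z)
      rw [← hw, Algebra.smul_def]
      change Ideal.Quotient.mk _ a * Ideal.Quotient.mk _ w = 0
      rw [Ideal.Quotient.eq_zero_iff_mem.2 ha, zero_mul]
  | exact N₁ N₂ N₃ f g hf hg hfg h₁ h₃ =>
    rintro ⟨k, hk⟩
    obtain ⟨f₁, hf₁, h₁⟩ := h₁ ⟨k, fun a ha z => hf (by rw [map_smul, map_zero]; exact hk a ha _)⟩
    obtain ⟨f₃, hf₃, h₃⟩ := h₃ ⟨k, fun a ha z => by
      obtain ⟨w, rfl⟩ := hg z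
      rw [← map_smul, hk a ha, map_zero]⟩
    refine ⟨f₁ * f₃, fun h => (‹P.IsPrime›.mem_or_mem h).elim hf₁ hf₃, fun Q _ hPQ hQ ys hys => ?_⟩
    exact WR_exact f g hf hg hfg
      (h₁ Q hPQ (fun h => hQ (Q.mul_mem_right _ h)) ys hys)
      (h₃ Q hPQ (fun h => hQ (Q.mul_mem_left _ h)) ys hys)

variable (p : ℕ) [Fact p.Prime] [CharP R p]

/-- `c` is not in `Q^[p^e]` locally at `Q`. -/
def Good (c : R) (Q : Ideal R) (e : ℕ) : Prop :=
  ∀ s, s ∉ Q → s * c ∉ Q.map (iterateFrobenius R p e)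

theorem map_frob_le_pow (Q : Ideal R) (e : ℕ) : Q.map (iterateFrobenius R p e) ≤ Q ^ (p ^ e) := by
  rw [Ideal.map_le_iff_le_comap]
  intro a ha
  rw [Ideal.mem_comap, iterateFrobenius_def]
  exact Ideal.pow_mem_pow ha _

theorem map_frob_mono (Q : Ideal R) {e e' : ℕ} (h : e ≤ e') :
    Q.map (iterateFrobenius R p e') ≤ Q.map (iterateFrobenius R p e) := by
  rw [Ideal.map_le_iff_le_comap]
  intro a ha
  rw [Ideal.mem_comap, iterateFrobenius_def]
  obtain ⟨k, rfl⟩ := Nat.exists_eq_add_of_le h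
  rw [pow_add, pow_mul]
  have h1 : a ^ p ^ e ∈ Q.map (iterateFrobenius R p e) := by
    have := Ideal.mem_map_of_mem (iterateFrobenius R p e) ha
    rwa [iterateFrobenius_def] at this
  exact Ideal.pow_mem_of_mem _ h1 _ (pow_pos (Fact.out : p.Prime).pos _)

theorem Good.mono {c : R} {Q : Ideal R} {e e' : ℕ} (h : Good p c Q e) (hle : e ≤ e') :
    Good p c Q e' := fun s hs hmem => h s hs (map_frob_mono p Q hle hmem)

theorem exists_good [IsNoetherianRing R] (c : R) (hc : ∀ P ∈ minimalPrimes R, c ∉ P) (P : Ideal R)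
    [P.IsPrime] : ∃ e, Good p c P e := by
  -- the image of `c` in the localization is nonzero
  have h0 : algebraMap R (Localization.AtPrime P) c ≠ 0 := by
    intro h
    obtain ⟨⟨s, hs⟩, h1⟩ := (IsLocalization.map_eq_zero_iff P.primeCompl _ c).1 h
    obtain ⟨𝔮, h𝔮, hle⟩ := Ideal.exists_minimalPrimes_le (I := ⊥) (J := P) bot_le
    have h2 : s * c ∈ 𝔮 := by
      change s * c = 0 at h1
      rw [h1]; exact 𝔮.zero_mem
    rcases h𝔮.1.1.mem_or_mem h2 with h3 | h3
    · exact hs (hle h3)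
    · exact hc 𝔮 h𝔮 h3
  have h1 : ∃ n, algebraMap R (Localization.AtPrime P) c ∉ maximalIdeal (Localization.AtPrime P) ^ n := by
    by_contra hcon
    push Not at hcon
    have h2 : algebraMap R (Localization.AtPrime P) c ∈
        (⨅ i : ℕ, maximalIdeal (Localization.AtPrime P) ^ i) := by
      rw [Ideal.mem_iInf]; exact hcon
    rw [Ideal.iInf_pow_eq_bot_of_isLocalRing _ (maximalIdeal.isMaximal _).ne_top] at h2
    exact h0 h2
  obtain ⟨n, hn⟩ := h1
  refine ⟨n, fun s hs hmem => hn ?_⟩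
  have h2 : s * c ∈ P ^ n := by
    refine Ideal.pow_le_pow_right ?_ (map_frob_le_pow p P n hmem)
    exact (Nat.lt_pow_self (Fact.out : p.Prime).one_lt).le
  have h3 := Ideal.mem_map_of_mem (algebraMap R (Localization.AtPrime P)) h2
  rw [Ideal.map_pow, Localization.AtPrime.map_eq_maximalIdeal, map_mul] at h3
  obtain ⟨w, hw⟩ := IsLocalization.map_units (Localization.AtPrime P) (⟨s, hs⟩ : P.primeCompl)
  have h4 := Ideal.mul_mem_left (maximalIdeal (Localization.AtPrime P) ^ n) (w⁻¹ : (Localization.AtPrime P)ˣ) h3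
  have hw' : algebraMap R (Localization.AtPrime P) s = w := hw.symm
  rw [hw', ← mul_assoc, Units.inv_mul, one_mul] at h4
  exact h4

/-- spreading out `Good` from `P` to the generic points of `V(P)` -/
theorem good_spread [IsNoetherianRing R] (c : R) (P : Ideal R) [P.IsPrime] (e : ℕ)
    (hP : Good p c P e) :
    ∃ f, f ∉ P ∧ ∀ (Q : Ideal R) [Q.IsPrime], P ≤ Q → f ∉ Q →
      ∀ (q : Ideal (R ⧸ P)) [q.IsPrime], Q = q.comap (Ideal.Quotient.mk P) →
        IsRegularLocalRing (Localization.AtPrime q) → Good p c Q e := by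
  set Fr := iterateFrobenius R p e with hFr
  have hFrv : ∀ x, Fr x = x ^ p ^ e := fun x => iterateFrobenius_def p e x
  have hpos : 1 ≤ p ^ e := pow_pos (Fact.out : p.Prime).pos _
  let B := R ⧸ P.map Fr
  let K : Submodule R B := Submodule.span R {Ideal.Quotient.mk (P.map Fr) c}
  have hrad : P ≤ (P.map Fr).radical := by
    intro a ha
    refine ⟨p ^ e, ?_⟩
    have := Ideal.mem_map_of_mem Fr ha
    rwa [hFrv] at this
  obtain ⟨k, hk⟩ := Ideal.exists_pow_le_of_le_radical_of_fg hrad (IsNoetherian.noetherian P)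
  obtain ⟨f, hf, hf2⟩ := generic_WR P (B ⧸ K) ⟨k, by
    intro a ha z
    obtain ⟨z, rfl⟩ := K.mkQ_surjective z
    obtain ⟨z, rfl⟩ := Ideal.Quotient.mk_surjective z
    rw [← map_smul]
    rw [smul_mk, Ideal.Quotient.eq_zero_iff_mem.2 (Ideal.mul_mem_right _ _ (hk ha)), map_zero]⟩
  refine ⟨f, hf, fun Q _ hPQ hfQ q _ hQ hreg s hs hmem => ?_⟩
  obtain ⟨ys, ⟨s', hs', h1⟩, hyQ, h2⟩ := exists_params_quot P q Q hQ hreg
  have hWR := hf2 Q hPQ hfQ _ (h2 (p ^ e) hpos)
  -- `Fr s' * x` for `x` in the Frobenius power of `Q`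
  have h3 : ∀ x ∈ Q.map Fr, Fr s' * x ∈ (P ⊔ Ideal.ofList ys).map Fr := by
    intro x hx
    have h4 : Q.map Fr ≤ ((P ⊔ Ideal.ofList ys).map Fr).colon {Fr s'} := by
      rw [Ideal.map_le_iff_le_comap]
      intro b hb
      rw [Ideal.mem_comap, Submodule.mem_colon_singleton, smul_eq_mul, ← map_mul, mul_comm]
      exact Ideal.mem_map_of_mem Fr (h1 b hb)
    have h5 := h4 hx
    rw [Submodule.mem_colon_singleton, smul_eq_mul, mul_comm] at h5
    exact h5
  have h4 := h3 _ hmem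
  have hlist : (Ideal.ofList ys).map Fr = Ideal.ofList (ys.map (· ^ p ^ e)) := by
    rw [Ideal.map_ofList]
    congr 1
  rw [Ideal.map_sup, hlist, Submodule.mem_sup] at h4
  obtain ⟨α, hα, β, hβ, hαβ⟩ := h4
  have h5 : (Fr s' * s) • (Ideal.Quotient.mk (P.map Fr) c : B) ∈
      Ideal.ofList (ys.map (· ^ p ^ e)) • (⊤ : Submodule R B) := by
    have h6 : (Fr s' * s) • (Ideal.Quotient.mk (P.map Fr) c : B) =
        β • (Ideal.Quotient.mk (P.map Fr) 1 : B) := by
      rw [smul_mk, smul_mk, mul_one, Ideal.Quotient.eq, mul_assoc, ← hαβ, add_sub_cancel_right]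
      exact hα
    rw [h6]
    exact Submodule.smul_mem_smul hβ trivial
  have hcK : (Ideal.Quotient.mk (P.map Fr) c : B) ∈ K := Submodule.mem_span_singleton_self _
  obtain ⟨t, ht, h7⟩ := inter_of_WR K hWR _ (K.smul_mem (Fr s' * s) hcK) h5
  obtain ⟨γ, hγ, h9⟩ := Submodule.mem_smul_span_singleton.1 h7
  have hγQ : γ ∈ Q := by
    have : Ideal.ofList (ys.map (· ^ p ^ e)) ≤ Q := by
      rw [Ideal.ofList, Ideal.span_le]
      intro y hy
      obtain ⟨y', hy', rfl⟩ := List.mem_map.1 hy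
      exact Ideal.pow_mem_of_mem _ (hyQ y' hy') _ hpos
    exact this hγ
  have h10 : (t * (Fr s' * s) - γ) * c ∈ P.map Fr := by
    rw [smul_mk, smul_mk, smul_mk, Ideal.Quotient.eq] at h9
    have e1 : (t * (Fr s' * s) - γ) * c = -(γ * c - t * (Fr s' * s * c)) := by ring
    rw [e1]
    exact Ideal.neg_mem_iff _ |>.2 h9
  refine hP (t * (Fr s' * s) - γ) ?_ h10
  intro hmem2
  have h11 : t * (Fr s' * s) ∈ Q := by
    have := Q.add_mem (hPQ hmem2) hγQ
    rwa [sub_add_cancel] at this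
  rcases ‹Q.IsPrime›.mem_or_mem h11 with h | h
  · exact ht h
  · rcases ‹Q.IsPrime›.mem_or_mem h with h | h
    · rw [hFrv] at h
      exact hs' (‹Q.IsPrime›.mem_of_pow_mem _ h)
    · exact hs h

end Pool.Agent.Y76.FPR
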