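import Pool.Agent.Y76.FPR.WR
import Pool.Agent.H379R3.Reg

/-!
Powers of a regular system of parameters of a regular local ring form a regular sequence; transfer to
localizations of quotients.
-/

set_option autoImplicit false
set_option linter.unusedVariables false

namespace Pool.Agent.Y76.FPR

open Submodule IsLocalRing

universe u v

variable {R : Type u} [CommRing R]

theorem WR_append {Q : Ideal R} [Q.IsPrime] {M : Type*} [AddCommGroup M] [Module R M] (y : R)
    (hy : ∀ z : M, y • z = 0 → ∃ t, t ∉ Q ∧ t • z = 0) (L : List R)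
    (h : WR Q (M ⧸ (Ideal.span {y} • (⊤ : Submodule R M))) L) : WR Q M (L ++ [y]) := by
  have key : ∀ (L' : List R) (z : M), z ∈ Ideal.ofList (L' ++ [y]) • (⊤ : Submodule R M) ↔
      (Ideal.span {y} • (⊤ : Submodule R M)).mkQ z ∈ Ideal.ofList L' •
        (⊤ : Submodule R (M ⧸ (Ideal.span {y} • (⊤ : Submodule R M)))) := by
    intro L' z
    rw [mkQ_mem_iff, Ideal.ofList_append, Ideal.ofList_singleton, Submodule.sup_smul,
      Submodule.mem_sup]
    constructor
    · rintro ⟨a, ha, b, hb, rfl⟩; exact ⟨a, ha, b, hb, rfl⟩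
    · rintro ⟨a, ha, b, hb, rfl⟩; exact ⟨a, ha, b, hb, rfl⟩
  induction L with
  | nil =>
    refine ⟨trivial, fun z hz => ?_⟩
    rw [Ideal.ofList_nil, Submodule.bot_smul, Submodule.mem_bot] at hz
    obtain ⟨t, ht, h1⟩ := hy z hz
    exact ⟨t, ht, by rw [h1]; exact Submodule.zero_mem _⟩
  | cons l L ih =>
    refine ⟨ih h.1, fun z hz => ?_⟩
    have hz' := (key L (l • z)).1 hz
    rw [map_smul] at hz'
    obtain ⟨t, ht, h1⟩ := h.2 _ hz'
    rw [← map_smul] at h1
    exact ⟨t, ht, (key L (t • z)).2 h1⟩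

theorem WR_pow {Q : Ideal R} [Q.IsPrime] {M : Type*} [AddCommGroup M] [Module R M] (y : R)
    (hy : ∀ z : M, y • z = 0 → z = 0) (L : List R)
    (h : WR Q (M ⧸ (Ideal.span {y} • (⊤ : Submodule R M))) L) (a : ℕ) (ha : 1 ≤ a) :
    WR Q (M ⧸ (Ideal.span {y ^ a} • (⊤ : Submodule R M))) L := by
  have hmem : ∀ (b : ℕ) (z : M), z ∈ Ideal.span {y ^ b} • (⊤ : Submodule R M) ↔ ∃ w, z = y ^ b • w := by
    intro b z
    rw [Submodule.ideal_span_singleton_smul, Submodule.mem_smul_pointwise_iff_exists]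
    constructor
    · rintro ⟨w, _, rfl⟩; exact ⟨w, rfl⟩
    · rintro ⟨w, rfl⟩; exact ⟨w, trivial, rfl⟩
  have hyp : ∀ (b : ℕ) (z : M), y ^ b • z = 0 → z = 0 := by
    intro b
    induction b with
    | zero => intro z hz; simpa using hz
    | succ b ih =>
      intro z hz
      rw [pow_succ, mul_smul] at hz
      exact hy z (ih _ hz)
  induction a, ha using Nat.le_induction with
  | base => rw [pow_one]; exact h
  | succ a ha ih =>
    let N1 : Submodule R M := Ideal.span {y} • ⊤
    let Na : Submodule R M := Ideal.span {y ^ a} • ⊤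
    let Nb : Submodule R M := Ideal.span {y ^ (a + 1)} • ⊤
    have hmem1 : ∀ z : M, z ∈ N1 ↔ ∃ w, z = y • w := by
      intro z
      have := hmem 1 z
      rw [pow_one] at this
      exact this
    let f : (M ⧸ N1) →ₗ[R] (M ⧸ Nb) := Submodule.mapQ N1 Nb (LinearMap.lsmul R M (y ^ a)) (by
      intro z hz
      obtain ⟨w, rfl⟩ := (hmem1 z).1 hz
      rw [Submodule.mem_comap]
      refine (hmem (a + 1) _).2 ⟨w, ?_⟩
      rw [LinearMap.lsmul_apply, smul_smul, pow_succ])
    let g : (M ⧸ Nb) →ₗ[R] (M ⧸ Na) := Submodule.mapQ Nb Na LinearMap.id (by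
      intro z hz
      obtain ⟨w, rfl⟩ := (hmem (a + 1) z).1 hz
      rw [Submodule.mem_comap, LinearMap.id_apply]
      refine (hmem a _).2 ⟨y • w, ?_⟩
      rw [smul_smul, pow_succ])
    have hf : ∀ z : M, f (N1.mkQ z) = Nb.mkQ (y ^ a • z) := fun z => rfl
    have hg : ∀ z : M, g (Nb.mkQ z) = Na.mkQ z := fun z => rfl
    refine WR_exact f g ?_ ?_ ?_ h ih
    · rw [injective_iff_map_eq_zero]
      intro z hz
      obtain ⟨z, rfl⟩ := Submodule.mkQ_surjective _ z
      rw [hf, Submodule.mkQ_apply, Submodule.Quotient.mk_eq_zero, hmem] at hz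
      obtain ⟨w, hw⟩ := hz
      rw [Submodule.mkQ_apply, Submodule.Quotient.mk_eq_zero, hmem1]
      refine ⟨w, ?_⟩
      have : y ^ a • (z - y • w) = 0 := by
        rw [smul_sub, hw, smul_smul, pow_succ, sub_self]
      exact sub_eq_zero.1 (hyp a _ this)
    · intro z
      obtain ⟨z, rfl⟩ := Submodule.mkQ_surjective _ z
      exact ⟨Nb.mkQ z, rfl⟩
    · intro z
      obtain ⟨z, rfl⟩ := Submodule.mkQ_surjective _ z
      rw [hg, Submodule.mkQ_apply, Submodule.Quotient.mk_eq_zero, hmem]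
      constructor
      · rintro ⟨w, rfl⟩; exact ⟨N1.mkQ w, rfl⟩
      · rintro ⟨w, hw⟩
        obtain ⟨w, rfl⟩ := Submodule.mkQ_surjective _ w
        rw [hf, Submodule.mkQ_apply, Submodule.mkQ_apply, Submodule.Quotient.eq, hmem] at hw
        obtain ⟨w', hw'⟩ := hw
        refine ⟨w - y • w', ?_⟩
        rw [smul_sub, smul_smul, ← pow_succ, ← hw']; abel

/-- quotient of an algebra by a principal ideal as a module over the base -/
noncomputable def quotEquiv (D : Type*) [CommRing D] [Algebra R D] (y : R) :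
    (D ⧸ Ideal.span {algebraMap R D y}) ≃ₗ[R] (D ⧸ (Ideal.span {y} • (⊤ : Submodule R D))) :=
  ((Submodule.Quotient.restrictScalarsEquiv R (Ideal.span {algebraMap R D y})).symm.trans
    (Submodule.quotEquivOfEq _ _ (by
      rw [Ideal.smul_top_eq_map, Ideal.map_span, Set.image_singleton])))

theorem comap_quot {D : Type*} [CommRing D] [IsLocalRing D] (I : Ideal D) [IsLocalRing (D ⧸ I)] :
    (maximalIdeal (D ⧸ I)).comap (Ideal.Quotient.mk I) = maximalIdeal D :=
  IsLocalRing.eq_maximalIdeal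
    (Ideal.comap_isMaximal_of_surjective (Ideal.Quotient.mk I) Ideal.Quotient.mk_surjective)

/-- A regular local `R`-algebra whose elements are, up to units, in the image of `R`, has a system of
parameters in the image of `R` whose powers form regular sequences. -/
theorem exists_params_aux (d : ℕ) : ∀ (D : Type v) [CommRing D] [Algebra R D] [IsRegularLocalRing D],
    ringKrullDim D = (d : ℕ) → (∀ x : D, ∃ (a : R) (w : Dˣ), x = w * algebraMap R D a) →
    ∀ (Q : Ideal R) [Q.IsPrime], Q = (maximalIdeal D).comap (algebraMap R D) →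
    ∃ ys : List R, (Ideal.ofList ys).map (algebraMap R D) = maximalIdeal D ∧
      ∀ q : ℕ, 1 ≤ q → WR Q D (ys.map (· ^ q)) := by
  induction d with
  | zero =>
    intro D _ _ _ hd H Q _ hQ
    refine ⟨[], ?_, fun q _ => trivial⟩
    rw [Pool.Agent.H379R3.dim_zero_maximalIdeal_eq_bot hd, Ideal.ofList_nil, Ideal.map_bot]
  | succ d ih =>
    intro D _ _ _ hd H Q _ hQ
    have hdom := Pool.Agent.H379R3.isDomain D
    have hsq : ¬ (maximalIdeal D ≤ maximalIdeal D ^ 2) := by
      intro hle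
      have h0 : maximalIdeal D = ⊥ := by
        apply Submodule.eq_bot_of_le_smul_of_le_jacobson_bot (maximalIdeal D) (maximalIdeal D)
          (maximalIdeal D).fg_of_isNoetherianRing
        · rw [smul_eq_mul, ← pow_two]; exact hle
        · exact IsLocalRing.maximalIdeal_le_jacobson _
      have h2 : IsField D := isField_iff_maximalIdeal_eq.2 h0
      have := ringKrullDim_eq_zero_of_isField h2
      rw [hd] at this
      have h3 : d + 1 = 0 := by exact_mod_cast this
      omega
    obtain ⟨z, hz, hz2⟩ := SetLike.not_le_iff_exists.1 hsq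
    obtain ⟨y, w, hzy⟩ := H z
    have hy : algebraMap R D y = (w⁻¹ : Dˣ) * z := by
      rw [hzy, ← mul_assoc, Units.inv_mul, one_mul]
    have hym : algebraMap R D y ∈ maximalIdeal D := by
      rw [hy]; exact Ideal.mul_mem_left _ _ hz
    have hym2 : algebraMap R D y ∉ maximalIdeal D ^ 2 := by
      intro h
      apply hz2
      rw [hzy]; exact Ideal.mul_mem_left _ _ h
    obtain ⟨hreg, hdim⟩ := Pool.Agent.H379R3.regular_quotient (algebraMap R D y) hym hym2 d hd
    have hcomap := comap_quot (Ideal.span {algebraMap R D y})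
    have halg : algebraMap R (D ⧸ Ideal.span {algebraMap R D y}) =
        (Ideal.Quotient.mk (Ideal.span {algebraMap R D y})).comp (algebraMap R D) := rfl
    obtain ⟨ys, h1, h2⟩ := ih (D ⧸ Ideal.span {algebraMap R D y}) hdim (by
      intro x
      obtain ⟨x, rfl⟩ := Ideal.Quotient.mk_surjective x
      obtain ⟨a, w, hx⟩ := H x
      refine ⟨a, Units.map (Ideal.Quotient.mk (Ideal.span {algebraMap R D y})).toMonoidHom w, ?_⟩
      rw [hx, map_mul]; rfl) Q (by
      rw [halg, ← Ideal.comap_comap, hcomap]; exact hQ)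
    refine ⟨ys ++ [y], ?_, ?_⟩
    · have e1 : (Ideal.span {y}).map (algebraMap R D) = Ideal.span {algebraMap R D y} := by
        rw [Ideal.map_span, Set.image_singleton]
      rw [Ideal.ofList_append, Ideal.map_sup, Ideal.ofList_singleton, e1, ← hcomap, ← h1, halg,
        ← Ideal.map_map,
        Ideal.comap_map_of_surjective _ Ideal.Quotient.mk_surjective, ← RingHom.ker_eq_comap_bot,
        Ideal.mk_ker]
    · intro q hq
      rw [List.map_append, List.map_cons, List.map_nil]
      have hy0 : algebraMap R D y ≠ 0 := by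
        intro h; apply hym2; rw [h]; exact Ideal.zero_mem _
      have hone : (1 : R) ∉ Q := fun h => ‹Q.IsPrime›.ne_top ((Ideal.eq_top_iff_one _).2 h)
      refine WR_append (y ^ q) ?_ _ ?_
      · intro z hz
        refine ⟨1, hone, ?_⟩
        rw [one_smul]
        rw [Algebra.smul_def, map_pow] at hz
        exact (mul_eq_zero.1 hz).resolve_left (pow_ne_zero _ hy0)
      · refine WR_pow y ?_ _ ?_ q hq
        · intro z hz
          rw [Algebra.smul_def] at hz
          exact (mul_eq_zero.1 hz).resolve_left hy0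
        · exact WR_congr (quotEquiv D y) (h2 q hq)

theorem exists_params (D : Type v) [CommRing D] [Algebra R D] [IsRegularLocalRing D]
    (H : ∀ x : D, ∃ (a : R) (w : Dˣ), x = w * algebraMap R D a)
    (Q : Ideal R) [Q.IsPrime] (hQ : Q = (maximalIdeal D).comap (algebraMap R D)) :
    ∃ ys : List R, (Ideal.ofList ys).map (algebraMap R D) = maximalIdeal D ∧
      ∀ q : ℕ, 1 ≤ q → WR Q D (ys.map (· ^ q)) := by
  obtain ⟨d, hd⟩ := Pool.Agent.H379R3.exists_dim_eq (B := D)
  exact exists_params_aux d D hd H Q hQ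

/-- finitely many denominators -/
theorem exists_common {Q : Ideal R} [Q.IsPrime] (I : Ideal R) (hI : I.FG) (J : Ideal R)
    (h : ∀ b ∈ I, ∃ s, s ∉ Q ∧ s * b ∈ J) : ∃ s, s ∉ Q ∧ ∀ b ∈ I, s * b ∈ J := by
  classical
  obtain ⟨S, rfl⟩ := hI
  induction S using Finset.induction_on with
  | empty =>
    refine ⟨1, fun h => ‹Q.IsPrime›.ne_top ((Ideal.eq_top_iff_one _).2 h), ?_⟩
    intro b hb
    have : b = 0 := by simpa using hb
    rw [this, mul_zero]; exact J.zero_mem
  | insert a S _ ih =>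
    obtain ⟨s, hs, h1⟩ := ih (fun b hb => h b (Submodule.span_mono (by
      rw [Finset.coe_insert]; exact Set.subset_insert _ _) hb))
    obtain ⟨t, ht, h2⟩ := h a (Submodule.subset_span (by simp))
    refine ⟨t * s, fun hmem => (‹Q.IsPrime›.mem_or_mem hmem).elim ht hs, ?_⟩
    intro b hb
    rw [Finset.coe_insert, ← Ideal.submodule_span_eq, Ideal.submodule_span_eq, Ideal.mem_span_insert] at hb
    obtain ⟨c, z, hz, rfl⟩ := hb
    have e : t * s * (c * a + z) = s * c * (t * a) + t * (s * z) := by ring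
    rw [e]
    exact J.add_mem (J.mul_mem_left _ h2) (J.mul_mem_left _ (h1 z hz))

/-- transfer of weak regularity from a localization of a quotient -/
theorem WR_of_localization (𝔞 : Ideal R) (q : Ideal (R ⧸ 𝔞)) [q.IsPrime] (Q : Ideal R) [Q.IsPrime]
    (hQ : Q = q.comap (Ideal.Quotient.mk 𝔞)) (L : List R)
    (h : WR Q (Localization.AtPrime q) L) : WR Q (R ⧸ 𝔞) L := by
  have hmem : ∀ (J : Ideal R) (z : R ⧸ 𝔞),
      algebraMap (R ⧸ 𝔞) (Localization.AtPrime q) z ∈ J • (⊤ : Submodule R (Localization.AtPrime q)) ↔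
      ∃ s, s ∉ Q ∧ s • z ∈ J • (⊤ : Submodule R (R ⧸ 𝔞)) := by
    intro J z
    rw [Ideal.smul_top_eq_map, Ideal.smul_top_eq_map, Submodule.restrictScalars_mem,
      IsScalarTower.algebraMap_eq R (R ⧸ 𝔞) (Localization.AtPrime q), ← Ideal.map_map,
      IsLocalization.algebraMap_mem_map_algebraMap_iff q.primeCompl]
    constructor
    · rintro ⟨m, hm, h1⟩
      obtain ⟨s, rfl⟩ := Ideal.Quotient.mk_surjective m
      refine ⟨s, ?_, ?_⟩
      · rw [hQ]; exact hm
      · rw [Submodule.restrictScalars_mem]; exact h1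
    · rintro ⟨s, hs, h1⟩
      rw [Submodule.restrictScalars_mem] at h1
      refine ⟨Ideal.Quotient.mk 𝔞 s, ?_, h1⟩
      rw [hQ] at hs; exact hs
  induction L with
  | nil => trivial
  | cons l L ih =>
    refine ⟨ih h.1, fun z hz => ?_⟩
    have h1 : l • algebraMap (R ⧸ 𝔞) (Localization.AtPrime q) z ∈
        Ideal.ofList L • (⊤ : Submodule R (Localization.AtPrime q)) := by
      have h2 : l • algebraMap (R ⧸ 𝔞) (Localization.AtPrime q) z =
          algebraMap (R ⧸ 𝔞) (Localization.AtPrime q) (l • z) := by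
        rw [Algebra.smul_def, Algebra.smul_def, map_mul, ← IsScalarTower.algebraMap_apply]
      rw [h2, hmem]
      exact ⟨1, fun h => ‹Q.IsPrime›.ne_top ((Ideal.eq_top_iff_one _).2 h), by rw [one_smul]; exact hz⟩
    obtain ⟨t, ht, h3⟩ := h.2 _ h1
    have h4 : t • algebraMap (R ⧸ 𝔞) (Localization.AtPrime q) z =
          algebraMap (R ⧸ 𝔞) (Localization.AtPrime q) (t • z) := by
        rw [Algebra.smul_def, Algebra.smul_def, map_mul, ← IsScalarTower.algebraMap_apply]
    rw [h4, hmem] at h3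
    obtain ⟨s, hs, h5⟩ := h3
    exact ⟨s * t, fun hmem => (‹Q.IsPrime›.mem_or_mem hmem).elim hs ht, by rw [mul_smul]; exact h5⟩

/-- Parameters at a prime `Q` at which `R ⧸ 𝔞` is regular. -/
theorem exists_params_quot [IsNoetherianRing R] (𝔞 : Ideal R) (q : Ideal (R ⧸ 𝔞)) [q.IsPrime]
    (Q : Ideal R) [Q.IsPrime] (hQ : Q = q.comap (Ideal.Quotient.mk 𝔞))
    (hreg : IsRegularLocalRing (Localization.AtPrime q)) :
    ∃ ys : List R, (∃ s, s ∉ Q ∧ ∀ b ∈ Q, s * b ∈ 𝔞 ⊔ Ideal.ofList ys) ∧
      (∀ y ∈ ys, y ∈ Q) ∧ ∀ n : ℕ, 1 ≤ n → WR Q (R ⧸ 𝔞) (ys.map (· ^ n)) := by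
  have hQ2 : Q = (maximalIdeal (Localization.AtPrime q)).comap
      (algebraMap R (Localization.AtPrime q)) := by
    have e1 : (maximalIdeal (Localization.AtPrime q)).comap
        (algebraMap (R ⧸ 𝔞) (Localization.AtPrime q)) = q :=
      IsLocalization.AtPrime.under_maximalIdeal (Localization.AtPrime q) q
    rw [IsScalarTower.algebraMap_eq R (R ⧸ 𝔞) (Localization.AtPrime q), ← Ideal.comap_comap, e1]
    exact hQ
  obtain ⟨ys, h1, h2⟩ := exists_params (R := R) (Localization.AtPrime q) (by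
    intro x
    obtain ⟨⟨a, s⟩, hx⟩ := IsLocalization.surj q.primeCompl x
    obtain ⟨a', ha'⟩ := Ideal.Quotient.mk_surjective a
    obtain ⟨w, hw⟩ := IsLocalization.map_units (Localization.AtPrime q) s
    refine ⟨a', w⁻¹, ?_⟩
    have h3 : algebraMap R (Localization.AtPrime q) a' = algebraMap (R ⧸ 𝔞) (Localization.AtPrime q) a := by
      rw [IsScalarTower.algebraMap_apply R (R ⧸ 𝔞) (Localization.AtPrime q), ← ha']; rfl
    have hx' : x * algebraMap (R ⧸ 𝔞) (Localization.AtPrime q) s =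
        algebraMap (R ⧸ 𝔞) (Localization.AtPrime q) a := hx
    rw [h3, ← hx', ← hw, mul_comm x, ← mul_assoc, Units.inv_mul, one_mul]) Q hQ2
  refine ⟨ys, ?_, ?_, fun n hn => WR_of_localization 𝔞 q Q hQ _ (h2 n hn)⟩
  · refine exists_common Q (IsNoetherian.noetherian Q) _ ?_
    intro b hb
    have h3 : algebraMap R (Localization.AtPrime q) b ∈ maximalIdeal (Localization.AtPrime q) := by
      rw [hQ2] at hb; exact hb
    rw [← h1, IsScalarTower.algebraMap_eq R (R ⧸ 𝔞) (Localization.AtPrime q), ← Ideal.map_map,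
      RingHom.comp_apply, IsLocalization.algebraMap_mem_map_algebraMap_iff q.primeCompl] at h3
    obtain ⟨m, hm, h4⟩ := h3
    obtain ⟨s, rfl⟩ := Ideal.Quotient.mk_surjective m
    refine ⟨s, by rw [hQ]; exact hm, ?_⟩
    have h5 : Ideal.Quotient.mk 𝔞 (s * b) ∈ (Ideal.ofList ys).map (Ideal.Quotient.mk 𝔞) := by
      rw [map_mul]; exact h4
    have h6 : s * b ∈ ((Ideal.ofList ys).map (Ideal.Quotient.mk 𝔞)).comap (Ideal.Quotient.mk 𝔞) := h5
    rw [Ideal.comap_map_of_surjective _ Ideal.Quotient.mk_surjective, ← RingHom.ker_eq_comap_bot,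
      Ideal.mk_ker, sup_comm] at h6
    exact h6
  · intro y hy
    rw [hQ2, Ideal.mem_comap, ← h1]
    exact Ideal.mem_map_of_mem _ (Ideal.subset_span hy)

end Pool.Agent.Y76.FPR
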