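import Mathlib

/-!
Sequences which are weakly regular on a module up to elements outside a prime ideal.
-/

set_option autoImplicit false
set_option linter.unusedVariables false

namespace Pool.Agent.Y76.FPR

open Submodule

universe u v

variable {R : Type u} [CommRing R]

/-- The list `ys` (last element first) is weakly regular on `M` at the prime `Q`. -/
def WR (Q : Ideal R) (M : Type v) [AddCommGroup M] [Module R M] : List R → Prop
  | [] => True
  | y :: ys => WR Q M ys ∧ ∀ z : M, y • z ∈ Ideal.ofList ys • (⊤ : Submodule R M) →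
      ∃ t, t ∉ Q ∧ t • z ∈ Ideal.ofList ys • (⊤ : Submodule R M)

theorem WR_nil (Q : Ideal R) (M : Type v) [AddCommGroup M] [Module R M] : WR Q M [] := trivial

theorem WR_cons {Q : Ideal R} {M : Type v} [AddCommGroup M] [Module R M] {y : R} {ys : List R} :
    WR Q M (y :: ys) ↔ WR Q M ys ∧ ∀ z : M, y • z ∈ Ideal.ofList ys • (⊤ : Submodule R M) →
      ∃ t, t ∉ Q ∧ t • z ∈ Ideal.ofList ys • (⊤ : Submodule R M) := Iff.rfl

section congr

variable {Q : Ideal R} {M M' : Type*} [AddCommGroup M] [Module R M] [AddCommGroup M'] [Module R M']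

theorem mem_smul_top_congr (e : M ≃ₗ[R] M') (I : Ideal R) (z : M) :
    e z ∈ I • (⊤ : Submodule R M') ↔ z ∈ I • (⊤ : Submodule R M) := by
  have h : (I • (⊤ : Submodule R M)).map e.toLinearMap = I • (⊤ : Submodule R M') := by
    rw [Submodule.map_smul'', Submodule.map_top, LinearEquiv.range]
  rw [← h]
  constructor
  · rintro ⟨w, hw, hwz⟩
    have : w = z := e.injective hwz
    rw [← this]; exact hw
  · intro hz
    exact ⟨z, hz, rfl⟩

theorem WR_congr (e : M ≃ₗ[R] M') {ys : List R} (h : WR Q M ys) : WR Q M' ys := by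
  induction ys with
  | nil => trivial
  | cons y ys ih =>
    refine ⟨ih h.1, fun z hz => ?_⟩
    have h1 : y • e.symm z ∈ Ideal.ofList ys • (⊤ : Submodule R M) := by
      rw [← mem_smul_top_congr e, map_smul, e.apply_symm_apply]; exact hz
    obtain ⟨t, ht, h2⟩ := h.2 _ h1
    refine ⟨t, ht, ?_⟩
    rw [← mem_smul_top_congr e, map_smul, e.apply_symm_apply] at h2
    exact h2

theorem WR_of_torsion (h : ∀ z : M, ∃ t, t ∉ Q ∧ t • z = 0) (ys : List R) : WR Q M ys := by
  induction ys with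
  | nil => trivial
  | cons y ys ih =>
    refine ⟨ih, fun z _ => ?_⟩
    obtain ⟨t, ht, h1⟩ := h z
    exact ⟨t, ht, by rw [h1]; exact Submodule.zero_mem _⟩

end congr

section ext

variable {Q : Ideal R} [Q.IsPrime] {B : Type*} [AddCommGroup B] [Module R B]

theorem mkQ_mem_iff (K : Submodule R B) (I : Ideal R) (z : B) :
    K.mkQ z ∈ I • (⊤ : Submodule R (B ⧸ K)) ↔ ∃ β ∈ I • (⊤ : Submodule R B), ∃ k ∈ K, z = β + k := by
  have h : (I • (⊤ : Submodule R B)).map K.mkQ = I • (⊤ : Submodule R (B ⧸ K)) := by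
    rw [Submodule.map_smul'', Submodule.map_top, Submodule.range_mkQ]
  rw [← h]
  constructor
  · rintro ⟨β, hβ, h1⟩
    refine ⟨β, hβ, z - β, ?_, by abel⟩
    have : K.mkQ (z - β) = 0 := by rw [map_sub, h1, sub_self]
    rwa [Submodule.mkQ_apply, Submodule.Quotient.mk_eq_zero] at this
  · rintro ⟨β, hβ, k, hk, rfl⟩
    refine ⟨β, hβ, ?_⟩
    rw [map_add]
    have : K.mkQ k = 0 := by rw [Submodule.mkQ_apply, Submodule.Quotient.mk_eq_zero]; exact hk
    rw [this, add_zero]

theorem cons_smul_top {y : R} {ys : List R} {z : B} (N : Submodule R B) :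
    z ∈ Ideal.ofList (y :: ys) • N ↔ ∃ b ∈ N, ∃ β ∈ Ideal.ofList ys • N, z = y • b + β := by
  rw [Ideal.ofList_cons, Submodule.sup_smul, Submodule.mem_sup]
  constructor
  · rintro ⟨a, ha, β, hβ, rfl⟩
    rw [Submodule.ideal_span_singleton_smul] at ha
    obtain ⟨b, hb, rfl⟩ := (Submodule.mem_smul_pointwise_iff_exists _ _ _).1 ha
    exact ⟨b, hb, β, hβ, rfl⟩
  · rintro ⟨b, hb, β, hβ, rfl⟩
    exact ⟨y • b, Submodule.smul_mem_smul (Ideal.mem_span_singleton_self y) hb, β, hβ, rfl⟩

/-- If `ys` is weakly regular on `B ⧸ K` at `Q`, then `K ∩ (ys) B = (ys) K` at `Q`. -/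
theorem inter_of_WR (K : Submodule R B) {ys : List R} (h : WR Q (B ⧸ K) ys) :
    ∀ b ∈ K, b ∈ Ideal.ofList ys • (⊤ : Submodule R B) → ∃ t, t ∉ Q ∧ t • b ∈ Ideal.ofList ys • K := by
  induction ys with
  | nil =>
    intro b _ hb
    refine ⟨1, fun h1 => (‹Q.IsPrime›.ne_top ((Ideal.eq_top_iff_one _).2 h1)), ?_⟩
    rw [Ideal.ofList_nil, Submodule.bot_smul, Submodule.mem_bot] at hb
    rw [hb, smul_zero]; exact Submodule.zero_mem _
  | cons y ys ih =>
    intro b hbK hb
    obtain ⟨bs, _, β', hβ', hb'⟩ := (cons_smul_top _).1 hb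
    -- in the quotient
    have h1 : y • K.mkQ bs ∈ Ideal.ofList ys • (⊤ : Submodule R (B ⧸ K)) := by
      rw [← map_smul, mkQ_mem_iff]
      refine ⟨-β', Submodule.neg_mem _ hβ', b, hbK, ?_⟩
      rw [hb']; abel
    obtain ⟨t, ht, h2⟩ := h.2 _ h1
    rw [← map_smul, mkQ_mem_iff] at h2
    obtain ⟨β, hβ, k, hk, h3⟩ := h2
    have h4 : t • b - y • k ∈ K := K.sub_mem (K.smul_mem _ hbK) (K.smul_mem _ hk)
    have h5 : t • b - y • k = y • β + t • β' := by
      rw [hb', smul_add, smul_comm t y bs, h3, smul_add]; abel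
    have h6 : t • b - y • k ∈ Ideal.ofList ys • (⊤ : Submodule R B) := by
      rw [h5]
      exact Submodule.add_mem _ (Submodule.smul_mem _ _ hβ) (Submodule.smul_mem _ _ hβ')
    obtain ⟨t', ht', h7⟩ := ih h.1 _ h4 h6
    refine ⟨t' * t, fun hmem => (‹Q.IsPrime›.mem_or_mem hmem).elim ht' ht, ?_⟩
    rw [cons_smul_top]
    refine ⟨t' • k, K.smul_mem _ hk, _, h7, ?_⟩
    rw [smul_sub, ← smul_smul, ← smul_comm y t' k]; abel

/-- Weak regularity passes to extensions. -/
theorem WR_ext (K : Submodule R B) {ys : List R} (h1 : WR Q K ys) (h2 : WR Q (B ⧸ K) ys) :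
    WR Q B ys := by
  induction ys with
  | nil => trivial
  | cons y ys ih =>
    refine ⟨ih h1.1 h2.1, fun z hz => ?_⟩
    have h3 : y • K.mkQ z ∈ Ideal.ofList ys • (⊤ : Submodule R (B ⧸ K)) := by
      rw [← map_smul, mkQ_mem_iff]
      exact ⟨y • z, hz, 0, K.zero_mem, by rw [add_zero]⟩
    obtain ⟨t, ht, h4⟩ := h2.2 _ h3
    rw [← map_smul, mkQ_mem_iff] at h4
    obtain ⟨β, hβ, k, hk, h5⟩ := h4
    have h6 : y • k ∈ Ideal.ofList ys • (⊤ : Submodule R B) := by
      have : y • k = t • (y • z) - y • β := by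
        rw [smul_comm t y z, h5, smul_add]; abel
      rw [this]
      exact Submodule.sub_mem _ (Submodule.smul_mem _ _ hz) (Submodule.smul_mem _ _ hβ)
    obtain ⟨t', ht', h7⟩ := inter_of_WR K h2.1 _ (K.smul_mem y hk) h6
    have h8 : y • (t' • (⟨k, hk⟩ : K)) ∈ Ideal.ofList ys • (⊤ : Submodule R K) := by
      have e : Ideal.ofList ys • K = (Ideal.ofList ys • (⊤ : Submodule R K)).map K.subtype := by
        rw [Submodule.map_smul'', Submodule.map_top, Submodule.range_subtype]
      rw [e] at h7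
      obtain ⟨w, hw, hwk⟩ := h7
      have : w = y • (t' • (⟨k, hk⟩ : K)) := by
        apply Subtype.ext
        rw [Submodule.subtype_apply] at hwk
        rw [hwk, smul_comm t' y k]; rfl
      rw [← this]; exact hw
    obtain ⟨t'', ht'', h9⟩ := h1.2 _ h8
    have h10 : t'' • (t' • k) ∈ Ideal.ofList ys • (⊤ : Submodule R B) := by
      have h11 := Submodule.mem_map_of_mem (f := K.subtype) h9
      rw [Submodule.map_smul'', Submodule.map_top, Submodule.range_subtype] at h11
      exact Submodule.smul_mono le_rfl le_top h11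
    refine ⟨t'' * (t' * t), fun hmem => ?_, ?_⟩
    · rcases ‹Q.IsPrime›.mem_or_mem hmem with h | h
      · exact ht'' h
      · exact (‹Q.IsPrime›.mem_or_mem h).elim ht' ht
    · rw [mul_smul, mul_smul, h5, smul_add, smul_add]
      exact Submodule.add_mem _ (Submodule.smul_mem _ _ (Submodule.smul_mem _ _ hβ)) h10

/-- Weak regularity passes to extensions, exact sequence form. -/
theorem WR_exact {A C : Type*} [AddCommGroup A] [Module R A] [AddCommGroup C] [Module R C]
    (f : A →ₗ[R] B) (g : B →ₗ[R] C) (hf : Function.Injective f) (hg : Function.Surjective g)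
    (hfg : Function.Exact f g) {ys : List R} (h1 : WR Q A ys) (h2 : WR Q C ys) : WR Q B ys := by
  refine WR_ext (LinearMap.range f) (WR_congr (LinearEquiv.ofInjective f hf) h1) ?_
  have e : (B ⧸ LinearMap.range f) ≃ₗ[R] C :=
    (Submodule.quotEquivOfEq _ _ (LinearMap.exact_iff.1 hfg).symm).trans
      (g.quotKerEquivOfSurjective hg)
  exact WR_congr e.symm h2

end ext

end Pool.Agent.Y76.FPR
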